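import Pool.Agent.KS6_51.INVC.Crit
import Pool.Agent.KS6_52.RG.Apps

set_option autoImplicit false

/-! # Sets with small energy, all coordinates with a property given by a criterion -/

namespace Pool.Agent.KS6_52.SQ

open Finset Filter Matrix
open Pool.Agent.Q20.RG
open Pool.Agent.Q46.SL (CS)
open Pool.Agent.KS6_51.INV (S inv_norm)
open Pool.Agent.KS6_51.INVC (Spread spread_affine)
open Pool.Agent.KS6_52.RG (energy bound4 energy_pos energy_le disc_ne pow_x q_x one_of_col one_of_row)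

/-- **families with small energy, criterion version** -/
theorem genCE {Θ : Type} (Q : Θ → ℝ → ℝ → ℤ → Prop) (lam : ℝ → ℝ) (J : Type) [Fintype J] [DecidableEq J]
    (hQ : CS Q lam (Fintype.card J)) (ε : ℝ) (hε : 0 < ε) (hε1 : ε ≤ 1) :
    ∃ κ : ℝ, 0 < κ ∧ ∃ cc : ℝ, 0 < cc ∧ ∃ p₀ : ℕ, ∀ p : ℕ, p₀ ≤ p → 0 ≤ lam p ∧ ∀ [Fact p.Prime],
    ∀ (θ : Θ) (P' : ℕ → Prop), (∀ x : ℕ, x < p → Q θ κ p x → P' x) →
    ∀ (Ω : Finset (J → ZMod p)) (T E : ℝ), 0 < T → (energy Ω : ℝ) ≤ E → Spread Ω T →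
    ∀ A N : J → ℕ, (∀ j, A j + N j ≤ p ∧ (p : ℝ) ^ ε ≤ N j) →
      (p : ℝ) ^ (5 * (Fintype.card J : ℝ) + 4 * ε) * E ≤ ((∏ j, (N j : ℝ)) * Ω.card) ^ 4 * T →
      ∃ G : Finset (J → ZMod p),
        cc * ((∏ j, (N j : ℝ)) * Ω.card / (p : ℝ) ^ Fintype.card J) * lam p ≤ G.card ∧
        ∀ v ∈ G, v ∈ Ω ∧ ∀ j, (A j ≤ (v j).val ∧ (v j).val < A j + N j) ∧ P' (v j).val := by
  classical
  obtain ⟨κ, hκ, cc, hcc, p₀, h⟩ := primeC Q lam J hQ ε hε hε1
  refine ⟨κ, hκ, cc, hcc, max p₀ 2, ?_⟩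
  intro p hp0
  obtain ⟨hl, h⟩ := h p ((le_max_left _ _).trans hp0)
  refine ⟨hl, ?_⟩
  intro _ θ P' hP' Ω T E hT hE hH A N hAN hW
  have hpp : p.Prime := Fact.out
  have hp : (0 : ℝ) < p := by exact_mod_cast hpp.pos
  set r : ℝ := (Fintype.card J : ℝ) with hr
  have hpr : (p : ℝ) ^ Fintype.card J = (p : ℝ) ^ r := by rw [hr, Real.rpow_natCast]
  have hΩ0 : (0 : ℝ) ≤ Ω.card := Nat.cast_nonneg _
  have hPN : 0 ≤ ∏ j, (N j : ℝ) := by positivity
  have hE0 : 0 ≤ E := (Nat.cast_nonneg _).trans hE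
  have hB0 : 0 ≤ (p : ℝ) ^ Fintype.card J * E / T := by positivity
  set B : ℝ := ((p : ℝ) ^ Fintype.card J * E / T) ^ (1 / 4 : ℝ) with hB
  have hB4 : B ^ 4 = (p : ℝ) ^ Fintype.card J * E / T := by
    rw [hB, ← Real.rpow_natCast, ← Real.rpow_mul hB0]
    norm_num
  have hBn : 0 ≤ B := Real.rpow_nonneg hB0 _
  refine ⟨_, h θ (J → ZMod p) Ω (fun v => v) B Ω.card hBn le_rfl (by
      intro h0 hh0
      obtain ⟨H, hH1, hH2⟩ := hH h0 hh0
      have h1 := bound4 Ω h0 H hH1 T hT hH2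
      have h2 : ‖S Ω h0‖ ^ 4 ≤ B ^ 4 := by
        rw [hB4]
        refine h1.trans ?_
        gcongr
      exact le_of_pow_le_pow_left₀ (by norm_num) hBn h2) A N (fun j => (hAN j).1) (fun j => (hAN j).2) (by
      apply le_of_pow_le_pow_left₀ (n := 4) (by norm_num) (by positivity)
      rw [mul_pow, mul_pow, hB4, hpr, div_mul_eq_mul_div, div_mul_eq_mul_div,
        div_le_iff₀ hT]
      have e1 : (p : ℝ) ^ r * E * ((p : ℝ) ^ ε) ^ 4 * ((p : ℝ) ^ r) ^ 4 =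
          (p : ℝ) ^ (5 * r + 4 * ε) * E := by
        have : (p : ℝ) ^ (5 * r + 4 * ε) = (p : ℝ) ^ r * ((p : ℝ) ^ ε) ^ 4 * ((p : ℝ) ^ r) ^ 4 := by
          rw [← Real.rpow_natCast ((p : ℝ) ^ ε), ← Real.rpow_natCast ((p : ℝ) ^ r), ← Real.rpow_mul hp.le,
            ← Real.rpow_mul hp.le, ← Real.rpow_add hp, ← Real.rpow_add hp]
          congr 1
          push_cast
          ring
        rw [this]
        ring
      rw [e1]
      exact hW), ?_⟩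
  intro v hv
  rw [mem_goodP] at hv
  refine ⟨hv.1, fun j => ?_⟩
  obtain ⟨h1, h2⟩ := hv.2 j
  rw [mem_Ico] at h1
  exact ⟨h1, hP' _ (ZMod.val_lt _) h2⟩

/-- **invariant sets** -/
theorem invC {Θ : Type} (Q : Θ → ℝ → ℝ → ℤ → Prop) (lam : ℝ → ℝ) (r : ℕ) (hQ : CS Q lam r)
    (ε : ℝ) (hε : 0 < ε) (hε1 : ε ≤ 1) :
    ∃ κ : ℝ, 0 < κ ∧ ∃ cc : ℝ, 0 < cc ∧ ∃ p₀ : ℕ, ∀ p : ℕ, p₀ ≤ p → ∀ [Fact p.Prime],
    ∀ (θ : Θ) (P' : ℕ → Prop), (∀ x : ℕ, x < p → Q θ κ p x → P' x) →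
    ∀ (Γ : Set (Matrix (Fin r) (Fin r) (ZMod p) × (Fin r → ZMod p))) (T : ℝ),
    (∀ H : Finset (Fin r → ZMod p), (∃ h ∈ H, h ≠ 0) → (∀ γ ∈ Γ, ∀ h ∈ H, h ᵥ* γ.1 ∈ H) → T ≤ H.card) →
    ∀ Ω : Finset (Fin r → ZMod p), (∀ γ ∈ Γ, Set.BijOn (fun v => γ.1 *ᵥ v + γ.2) Ω Ω) →
    ∀ A N : Fin r → ℕ, (∀ j, A j + N j ≤ p ∧ (p : ℝ) ^ ε ≤ N j) →
      (p : ℝ) ^ (5 * (r : ℝ) + ε) * energy Ω ≤ ((∏ j, (N j : ℝ)) * Ω.card) ^ 4 * T →
      ∃ G : Finset (Fin r → ZMod p),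
        cc * ((∏ j, (N j : ℝ)) * Ω.card / (p : ℝ) ^ r) * lam p ≤ G.card ∧
        ∀ v ∈ G, v ∈ Ω ∧ ∀ j, (A j ≤ (v j).val ∧ (v j).val < A j + N j) ∧ P' (v j).val := by
  classical
  obtain ⟨κ, hκ, cc, hcc, p₀, h⟩ := genCE Q lam (Fin r) (by rw [Fintype.card_fin]; exact hQ) (ε / 4)
    (by positivity) (by linarith)
  refine ⟨κ, hκ, cc, hcc, p₀, ?_⟩
  intro p hp0 _ θ P' hP' Γ T hT Ω hΩ A N hAN hW
  have hpp : p.Prime := Fact.out
  have hp : (0 : ℝ) < p := by exact_mod_cast hpp.pos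
  have hp1 : (1 : ℝ) ≤ p := by exact_mod_cast hpp.one_lt.le
  have hmono : ∀ x y : ℝ, x ≤ y → (p : ℝ) ^ x ≤ (p : ℝ) ^ y := fun x y h =>
    Real.rpow_le_rpow_of_exponent_le hp1 h
  rcases Ω.eq_empty_or_nonempty with rfl | hne
  · exact ⟨∅, by simp, by simp⟩
  have hT0 : 0 < T := by
    by_contra hcon
    have h1 : ((∏ j, (N j : ℝ)) * Ω.card) ^ 4 * T ≤ 0 :=
      mul_nonpos_of_nonneg_of_nonpos (by positivity) (not_lt.1 hcon)
    have h3 : (0 : ℝ) < energy Ω := by exact_mod_cast energy_pos hne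
    have h2 : (0 : ℝ) < (p : ℝ) ^ (5 * (r : ℝ) + ε) * energy Ω := by positivity
    linarith
  have key := (h p hp0).2 θ P' hP' Ω T (energy Ω) hT0 le_rfl (spread_affine Γ T hT Ω hΩ) A N
    (fun j => ⟨(hAN j).1, (hmono _ _ (by linarith)).trans (hAN j).2⟩) (by
      rw [Fintype.card_fin]
      refine le_trans (le_of_eq ?_) hW
      congr 2
      ring)
  rw [Fintype.card_fin] at key
  exact key

section orbit

variable {p : ℕ} [Fact p.Prime] {M : Matrix (Fin 2) (Fin 2) (ZMod p)} {x : ℕ → Fin 2 → ZMod p}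

open Classical in
/-- the orbits of a matrix of determinant one -/
lemma orbit_facts (hd : M.det = 1) (htr : M.trace ^ 2 ≠ 4) (hx : ∀ k, x (k + 1) = M *ᵥ x k)
    (h01 : x 0 0 * x 1 1 ≠ x 0 1 * x 1 0) (ht : 0 < orderOf M) :
    ((range (orderOf M)).image x).card = orderOf M ∧
    (energy ((range (orderOf M)).image x) : ℝ) ≤ 3 * (orderOf M : ℝ) ^ 2 ∧
    Spread ((range (orderOf M)).image x) (orderOf M) := by
  have hD := disc_ne hd htr
  have hc : x 0 0 * x 1 1 - x 0 1 * x 1 0 ≠ 0 := sub_ne_zero.2 h01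
  have hxne : ∀ k, x k ≠ 0 := by
    intro k h0
    apply hc
    rw [← q_x hd hx k, h0]
    simp
  set t : ℕ := orderOf M with htd
  have hpowdet : ∀ k, (M ^ k).det = 1 := fun k => by rw [det_pow, hd, one_pow]
  have hcomm : ∀ k, M * M ^ k = M ^ k * M := fun k => by rw [← pow_succ', ← pow_succ]
  have hsmall : ∀ k, k < t → M ^ k = 1 → k = 0 := by
    intro k hk h1
    have h2 := orderOf_dvd_of_pow_eq_one h1
    rcases Nat.eq_zero_or_pos k with h3 | h3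
    · exact h3
    · have := Nat.le_of_dvd h3 h2
      omega
  have hinjx : Set.InjOn x (range t : Finset ℕ) := by
    intro i hi j hj hij
    wlog hle : i ≤ j generalizing i j
    · exact (this hj hi hij.symm (by omega)).symm
    rw [mem_coe, mem_range] at hi hj
    obtain ⟨m, rfl⟩ := Nat.exists_eq_add_of_le hle
    have h1 := pow_x hx i m
    rw [← hij] at h1
    have h2 := one_of_col (hpowdet m) (hcomm m) hD (hxne i) h1.symm
    have := hsmall m (by omega) h2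
    omega
  set Ω : Finset (Fin 2 → ZMod p) := (range t).image x with hΩ
  have hcard : Ω.card = t := by rw [hΩ, card_image_of_injOn hinjx, card_range]
  have hmaps : Set.MapsTo (fun v => M *ᵥ v) Ω Ω := by
    intro v hv
    rw [mem_coe, hΩ, mem_image] at hv
    obtain ⟨k, hk, rfl⟩ := hv
    rw [mem_range] at hk
    simp only
    rw [← hx k, mem_coe, hΩ, mem_image]
    rcases Nat.lt_or_ge (k + 1) t with h1 | h1
    · exact ⟨k + 1, mem_range.2 h1, rfl⟩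
    · have h2 : k + 1 = t := by omega
      refine ⟨0, mem_range.2 ht, ?_⟩
      have h3 := pow_x hx 0 t
      rw [zero_add, htd, pow_orderOf_eq_one, one_mulVec, ← htd] at h3
      rw [h2, h3]
  have hinj : Function.Injective (fun v : Fin 2 → ZMod p => M *ᵥ v) := by
    intro v w hvw
    have h1 : M *ᵥ v = M *ᵥ w := hvw
    have h2 : M ^ (t - 1) * M = 1 := by
      rw [← pow_succ, Nat.sub_add_cancel ht, htd, pow_orderOf_eq_one]
    rw [← one_mulVec v, ← one_mulVec w, ← h2, ← mulVec_mulVec, ← mulVec_mulVec, h1]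
  have hen : (energy Ω : ℝ) ≤ 3 * (t : ℝ) ^ 2 := by
    have h1 := energy_le Ω hD hc (by
      intro u hu
      rw [hΩ, mem_image] at hu
      obtain ⟨k, -, rfl⟩ := hu
      exact q_x hd hx k)
    rw [hcard] at h1
    exact_mod_cast h1
  refine ⟨hcard, hen, ?_⟩
  intro h0 hh0
  refine ⟨(range t).image (fun k => h0 ᵥ* M ^ k), ?_, ?_⟩
  · intro g hg
    obtain ⟨k, -, rfl⟩ := mem_image.1 hg
    induction k with
    | zero => rw [pow_zero, vecMul_one]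
    | succ k ih =>
      rw [← ih (by
        by_cases hk : k < t
        · exact mem_image_of_mem _ (mem_range.2 hk)
        · have h3 : M ^ k = M ^ (k % t) := by rw [htd, pow_mod_orderOf]
          rw [h3]
          exact mem_image_of_mem _ (mem_range.2 (Nat.mod_lt _ ht)))]
      symm
      refine inv_norm Ω (fun v => M *ᵥ v) hmaps hinj.injOn (h0 ᵥ* M ^ k) (h0 ᵥ* M ^ (k + 1))
        0 fun v => ?_
      rw [dotProduct_mulVec, vecMul_vecMul, ← pow_succ, add_zero]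
  · rw [card_image_of_injOn, card_range]
    intro i hi j hj hij
    wlog hle : i ≤ j generalizing i j
    · exact (this hj hi hij.symm (by omega)).symm
    rw [mem_coe, mem_range] at hi hj
    obtain ⟨m, rfl⟩ := Nat.exists_eq_add_of_le hle
    replace hij : h0 ᵥ* M ^ i = h0 ᵥ* M ^ (i + m) := hij
    rw [pow_add, ← vecMul_vecMul] at hij
    have hne : h0 ᵥ* M ^ i ≠ 0 := by
      intro h4
      apply hh0
      have h5 : M ^ i * M ^ (t - i) = 1 := by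
        rw [← pow_add, show i + (t - i) = t by omega, htd, pow_orderOf_eq_one]
      rw [← vecMul_one h0, ← h5, ← vecMul_vecMul, h4, zero_vecMul]
    have h2 := one_of_row (hpowdet m) (hcomm m) hD hne hij.symm
    have := hsmall m (by omega) h2
    omega

end orbit

/-- **orbits of matrices of determinant one** -/
theorem sl2C {Θ : Type} (Q : Θ → ℝ → ℝ → ℤ → Prop) (lam : ℝ → ℝ) (hQ : CS Q lam 2)
    (ε : ℝ) (hε : 0 < ε) (hε1 : ε ≤ 1) :
    ∃ κ : ℝ, 0 < κ ∧ ∃ cc : ℝ, 0 < cc ∧ ∃ p₀ : ℕ, ∀ p : ℕ, p₀ ≤ p → 0 ≤ lam p ∧ ∀ [Fact p.Prime],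
    ∀ (θ : Θ) (P' : ℕ → Prop), (∀ x : ℕ, x < p → Q θ κ p x → P' x) →
    ∀ M : Matrix (Fin 2) (Fin 2) (ZMod p), M.det = 1 → M.trace ^ 2 ≠ 4 →
    ∀ x : ℕ → Fin 2 → ZMod p, (∀ k, x (k + 1) = M *ᵥ x k) → x 0 0 * x 1 1 ≠ x 0 1 * x 1 0 →
    ∀ A N : Fin 2 → ℕ, (∀ j, A j + N j ≤ p ∧ (p : ℝ) ^ ε ≤ N j) →
      (p : ℝ) ^ (10 + ε) ≤ (∏ j, (N j : ℝ)) ^ 4 * (orderOf M : ℝ) ^ 3 →
      ∃ G : Finset ℕ,
        cc * ((∏ j, (N j : ℝ)) * orderOf M / (p : ℝ) ^ 2) * lam p ≤ G.card ∧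
        ∀ k ∈ G, k < orderOf M ∧ ∀ j, (A j ≤ (x k j).val ∧ (x k j).val < A j + N j) ∧
          P' (x k j).val := by
  classical
  obtain ⟨κ, hκ, cc, hcc, p₀, h⟩ := genCE Q lam (Fin 2) (by rw [Fintype.card_fin]; exact hQ) (ε / 8)
    (by positivity) (by linarith)
  obtain ⟨p₁, hp₁⟩ : ∃ p₁ : ℕ, ∀ p : ℕ, p₁ ≤ p → 3 ≤ (p : ℝ) ^ (ε / 2) :=
    eventually_atTop.1 (((tendsto_rpow_atTop (show 0 < ε / 2 by positivity)).comp
      tendsto_natCast_atTop_atTop).eventually_ge_atTop 3)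
  refine ⟨κ, hκ, cc, hcc, max p₀ p₁, ?_⟩
  intro p hp0
  refine ⟨(h p ((le_max_left _ _).trans hp0)).1, ?_⟩
  intro _ θ P' hP' M hd htr x hx h01 A N hAN hW
  have hpp : p.Prime := Fact.out
  have hp : (0 : ℝ) < p := by exact_mod_cast hpp.pos
  have hp1 : (1 : ℝ) ≤ p := by exact_mod_cast hpp.one_lt.le
  have hmono : ∀ x y : ℝ, x ≤ y → (p : ℝ) ^ x ≤ (p : ℝ) ^ y := fun x y h =>
    Real.rpow_le_rpow_of_exponent_le hp1 h
  have ht : 0 < orderOf M := by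
    rcases Nat.eq_zero_or_pos (orderOf M) with h1 | h1
    · rw [h1, Nat.cast_zero] at hW
      have h2 : (0 : ℝ) < (p : ℝ) ^ (10 + ε) := by positivity
      norm_num at hW
      linarith
    · exact h1
  obtain ⟨hcard, hen, hspread⟩ := orbit_facts hd htr hx h01 ht
  set t : ℕ := orderOf M with htd
  set Ω : Finset (Fin 2 → ZMod p) := (range t).image x with hΩ
  have ht0 : (0 : ℝ) < t := by exact_mod_cast ht
  obtain ⟨G, hG1, hG2⟩ := (h p ((le_max_left _ _).trans hp0)).2 θ P' hP' Ω t (3 * (t : ℝ) ^ 2) ht0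
    hen hspread A N (fun j => ⟨(hAN j).1, (hmono _ _ (by linarith)).trans (hAN j).2⟩) (by
      rw [Fintype.card_fin, hcard]
      have h1 : (p : ℝ) ^ (5 * ((2 : ℕ) : ℝ) + 4 * (ε / 8)) * 3 ≤ (p : ℝ) ^ (10 + ε) := by
        calc (p : ℝ) ^ (5 * ((2 : ℕ) : ℝ) + 4 * (ε / 8)) * 3 ≤
            (p : ℝ) ^ (5 * ((2 : ℕ) : ℝ) + 4 * (ε / 8)) * (p : ℝ) ^ (ε / 2) :=
              mul_le_mul_of_nonneg_left (hp₁ p ((le_max_right _ _).trans hp0)) (by positivity)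
          _ = (p : ℝ) ^ (10 + ε) := by
              rw [← Real.rpow_add hp]
              congr 1
              push_cast
              ring
      calc (p : ℝ) ^ (5 * ((2 : ℕ) : ℝ) + 4 * (ε / 8)) * (3 * (t : ℝ) ^ 2) =
          (p : ℝ) ^ (5 * ((2 : ℕ) : ℝ) + 4 * (ε / 8)) * 3 * (t : ℝ) ^ 2 := by ring
        _ ≤ (∏ j, (N j : ℝ)) ^ 4 * (t : ℝ) ^ 3 * (t : ℝ) ^ 2 :=
            mul_le_mul_of_nonneg_right (h1.trans hW) (by positivity)
        _ = _ := by ring)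
  rw [Fintype.card_fin, hcard] at hG1
  refine ⟨(range t).filter (fun k => x k ∈ G), ?_, ?_⟩
  · refine hG1.trans ?_
    have hsub : G ⊆ ((range t).filter (fun k => x k ∈ G)).image x := by
      intro v hv
      have g2 := (hG2 v hv).1
      rw [hΩ, mem_image] at g2
      obtain ⟨k, hk, rfl⟩ := g2
      exact mem_image_of_mem _ (mem_filter.2 ⟨hk, hv⟩)
    exact_mod_cast (card_le_card hsub).trans card_image_le
  · intro k hk
    rw [mem_filter, mem_range] at hk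
    exact ⟨hk.1, (hG2 _ hk.2).2⟩

/-- **elements of a subgroup and their inverses** -/
theorem inversesC {Θ : Type} (Q : Θ → ℝ → ℝ → ℤ → Prop) (lam : ℝ → ℝ) (hQ : CS Q lam 2)
    (ε : ℝ) (hε : 0 < ε) (hε1 : ε ≤ 1) :
    ∃ κ : ℝ, 0 < κ ∧ ∃ cc : ℝ, 0 < cc ∧ ∃ p₀ : ℕ, ∀ p : ℕ, p₀ ≤ p → ∀ [Fact p.Prime],
    ∀ (θ : Θ) (P' : ℕ → Prop), (∀ x : ℕ, x < p → Q θ κ p x → P' x) →
    ∀ (H : Subgroup (ZMod p)ˣ) (a b : (ZMod p)ˣ),
    ∀ A N : Fin 2 → ℕ, (∀ j, A j + N j ≤ p ∧ (p : ℝ) ^ ε ≤ N j) →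
      (p : ℝ) ^ (10 + ε) ≤ (∏ j, (N j : ℝ)) ^ 4 * (Nat.card H : ℝ) ^ 3 →
      ∃ G : Finset (ZMod p)ˣ,
        cc * ((∏ j, (N j : ℝ)) * Nat.card H / (p : ℝ) ^ 2) * lam p ≤ G.card ∧
        ∀ u ∈ G, u ∈ H ∧
          (A 0 ≤ ((a * u : (ZMod p)ˣ) : ZMod p).val ∧ ((a * u : (ZMod p)ˣ) : ZMod p).val < A 0 + N 0) ∧
          (A 1 ≤ ((b * u⁻¹ : (ZMod p)ˣ) : ZMod p).val ∧
            ((b * u⁻¹ : (ZMod p)ˣ) : ZMod p).val < A 1 + N 1) ∧
          P' ((a * u : (ZMod p)ˣ) : ZMod p).val ∧ P' ((b * u⁻¹ : (ZMod p)ˣ) : ZMod p).val := by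
  classical
  obtain ⟨κ, hκ, cc, hcc, p₀, h⟩ := sl2C Q lam hQ ε hε hε1
  refine ⟨κ, hκ, cc, hcc, max p₀ 8, ?_⟩
  intro p hp0 _ θ P' hP' H a b A N hAN hW
  have hpp : p.Prime := Fact.out
  have hp : (0 : ℝ) < p := by exact_mod_cast hpp.pos
  have hp1 : (1 : ℝ) ≤ p := by exact_mod_cast hpp.one_lt.le
  obtain ⟨g, hg⟩ := IsCyclic.exists_generator (α := H)
  have hcard : orderOf (g : (ZMod p)ˣ) = Nat.card H := by
    rw [Subgroup.orderOf_coe, ← orderOf_eq_card_of_forall_mem_zpowers hg]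
  set γ : (ZMod p)ˣ := (g : (ZMod p)ˣ) with hγ
  have hN8 : (∏ j, (N j : ℝ)) ^ 4 ≤ (p : ℝ) ^ 8 := by
    have h1 : ∏ j, (N j : ℝ) ≤ ∏ _j : Fin 2, (p : ℝ) :=
      prod_le_prod (fun _ _ => by positivity) fun j _ => by
        have := (hAN j).1
        exact_mod_cast (by omega : N j ≤ p)
    rw [prod_const, card_univ, Fintype.card_fin] at h1
    calc (∏ j, (N j : ℝ)) ^ 4 ≤ ((p : ℝ) ^ 2) ^ 4 := pow_le_pow_left₀ (by positivity) h1 4
      _ = (p : ℝ) ^ 8 := by ring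
  have hbig : 2 < Nat.card H := by
    by_contra hcon
    have h1 : (Nat.card H : ℝ) ≤ 2 := by exact_mod_cast not_lt.1 hcon
    have h2 : (∏ j, (N j : ℝ)) ^ 4 * (Nat.card H : ℝ) ^ 3 ≤ (p : ℝ) ^ 8 * 2 ^ 3 := by gcongr
    have h3 : (p : ℝ) ^ (10 : ℝ) ≤ (p : ℝ) ^ (10 + ε) :=
      Real.rpow_le_rpow_of_exponent_le hp1 (by linarith)
    have h4 : (p : ℝ) ^ (10 : ℝ) = (p : ℝ) ^ 10 := by
      rw [← Real.rpow_natCast]; norm_num
    have h5 : (8 : ℝ) ≤ p := by exact_mod_cast (le_max_right _ _).trans hp0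
    have h6 : (p : ℝ) ^ 8 * 2 ^ 3 < (p : ℝ) ^ 10 := by
      have h7 : (0 : ℝ) < (p : ℝ) ^ 8 := by positivity
      have h8 : (p : ℝ) ^ 10 = (p : ℝ) ^ 8 * (p : ℝ) ^ 2 := by ring
      rw [h8]
      apply mul_lt_mul_of_pos_left _ h7
      nlinarith
    have h9 := (h3.trans hW).trans h2
    rw [h4] at h9
    exact absurd h9 (not_le.2 h6)
  have hsq : γ ^ 2 ≠ 1 := by
    intro h1
    have h2 := Nat.le_of_dvd (by norm_num) (orderOf_dvd_of_pow_eq_one h1)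
    rw [hcard] at h2
    omega
  have hsq' : ((γ : ZMod p)) ^ 2 ≠ 1 := by
    intro h1
    apply hsq
    ext
    push_cast
    exact h1
  have hγi : (γ : ZMod p) * ((γ⁻¹ : (ZMod p)ˣ) : ZMod p) = 1 := by
    rw [← Units.val_mul, mul_inv_cancel, Units.val_one]
  set M : Matrix (Fin 2) (Fin 2) (ZMod p) := diagonal ![(γ : ZMod p), ((γ⁻¹ : (ZMod p)ˣ) : ZMod p)] with hM
  have hdet : M.det = 1 := by
    rw [hM, det_diagonal, Fin.prod_univ_two]
    exact hγi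
  have htr : M.trace ^ 2 ≠ 4 := by
    rw [hM, trace_fin_two]
    simp only [diagonal_apply_eq, cons_val_zero, cons_val_one]
    intro h1
    apply hsq'
    have h2 : ((γ : ZMod p) - ((γ⁻¹ : (ZMod p)ˣ) : ZMod p)) ^ 2 = 0 := by
      linear_combination h1 - 4 * hγi
    have h3 : (γ : ZMod p) - ((γ⁻¹ : (ZMod p)ˣ) : ZMod p) = 0 := by
      exact pow_eq_zero_iff (two_ne_zero) |>.1 h2
    linear_combination (γ : ZMod p) * h3 + hγi
  have hpow : ∀ k, M ^ k = diagonal ![((γ ^ k : (ZMod p)ˣ) : ZMod p), (((γ ^ k)⁻¹ : (ZMod p)ˣ) : ZMod p)] := by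
    intro k
    rw [hM, diagonal_pow]
    congr 1
    funext i
    fin_cases i
    · change ((γ : ZMod p)) ^ k = ((γ ^ k : (ZMod p)ˣ) : ZMod p)
      rw [Units.val_pow_eq_pow_val]
    · change (((γ⁻¹ : (ZMod p)ˣ) : ZMod p)) ^ k = (((γ ^ k)⁻¹ : (ZMod p)ˣ) : ZMod p)
      rw [← Units.val_pow_eq_pow_val, inv_pow]
  have hord : orderOf M = Nat.card H := by
    rw [← hcard]
    apply orderOf_eq_orderOf_iff.2
    intro k
    rw [hpow]
    constructor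
    · intro h1
      have h2 := congrFun (congrFun h1 0) 0
      rw [diagonal_apply_eq, one_apply_eq] at h2
      ext
      exact h2
    · intro h1
      rw [h1]
      ext i j
      fin_cases i <;> fin_cases j <;> simp
  set x : ℕ → Fin 2 → ZMod p := fun k => ![((a * γ ^ k : (ZMod p)ˣ) : ZMod p),
    ((b * (γ ^ k)⁻¹ : (ZMod p)ˣ) : ZMod p)] with hx
  have hx1 : ∀ k, x (k + 1) = M *ᵥ x k := by
    intro k
    funext i
    rw [hM, mulVec_diagonal]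
    fin_cases i
    · simp only [hx, Fin.zero_eta, cons_val_zero]
      push_cast
      rw [pow_succ]
      ring
    · change ((b * (γ ^ (k + 1))⁻¹ : (ZMod p)ˣ) : ZMod p) =
        ((γ⁻¹ : (ZMod p)ˣ) : ZMod p) * ((b * (γ ^ k)⁻¹ : (ZMod p)ˣ) : ZMod p)
      rw [← Units.val_mul]
      congr 1
      rw [pow_succ, mul_inv, ← mul_assoc, mul_comm (b * (γ ^ k)⁻¹) γ⁻¹]
  have hx01 : x 0 0 * x 1 1 ≠ x 0 1 * x 1 0 := by
    simp only [hx, cons_val_zero, cons_val_one, pow_zero, pow_one, mul_one, inv_one]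
    rw [← Units.val_mul, ← Units.val_mul]
    intro h1
    have h2 := Units.ext h1
    apply hsq
    have h3 : γ⁻¹ = γ := by
      have h4 : a * b * γ⁻¹ = a * b * γ := by
        calc a * b * γ⁻¹ = a * (b * γ⁻¹) := mul_assoc _ _ _
          _ = b * (a * γ) := h2
          _ = a * b * γ := by rw [← mul_assoc, mul_comm b a]
      exact mul_left_cancel h4
    rw [sq]
    nth_rewrite 1 [← h3]
    exact inv_mul_cancel _
  obtain ⟨G, hG1, hG2⟩ := (h p ((le_max_left _ _).trans hp0)).2 θ P' hP' M hdet htr x hx1 hx01 A N hAN (by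
    rw [hord]; exact hW)
  rw [hord] at hG1
  refine ⟨G.image fun k => γ ^ k, ?_, ?_⟩
  · rw [card_image_of_injOn]
    · exact hG1
    · intro i hi j hj hij
      have h1 := (hG2 i hi).1
      have h2 := (hG2 j hj).1
      rw [hord, ← hcard] at h1 h2
      exact pow_injOn_Iio_orderOf h1 h2 hij
  · intro u hu
    obtain ⟨k, hk, rfl⟩ := mem_image.1 hu
    obtain ⟨-, h2⟩ := hG2 k hk
    exact ⟨H.pow_mem g.2 k, (h2 0).1, (h2 1).1, (h2 0).2, (h2 1).2⟩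

open Pool.Agent.KS6_52.RG (fibM)

/-- **Fibonacci numbers** -/
theorem fibonacciC {Θ : Type} (Q : Θ → ℝ → ℝ → ℤ → Prop) (lam : ℝ → ℝ) (hQ : CS Q lam 2)
    (ε : ℝ) (hε : 0 < ε) (hε1 : ε ≤ 1) :
    ∃ κ : ℝ, 0 < κ ∧ ∃ cc : ℝ, 0 < cc ∧ ∃ p₀ : ℕ, ∀ p : ℕ, p₀ ≤ p → p.Prime →
    ∀ (θ : Θ) (P' : ℕ → Prop), (∀ x : ℕ, x < p → Q θ κ p x → P' x) →
    ∀ π : ℕ, IsLeast {m : ℕ | 0 < m ∧ p ∣ Nat.fib m ∧ Nat.fib (m + 1) ≡ 1 [MOD p]} π →
    ∀ A N : Fin 2 → ℕ, (∀ j, A j + N j ≤ p ∧ (p : ℝ) ^ ε ≤ N j) →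
      (p : ℝ) ^ (10 + ε) ≤ (∏ j, (N j : ℝ)) ^ 4 * (π : ℝ) ^ 3 →
      ∃ G : Finset ℕ,
        cc * ((∏ j, (N j : ℝ)) * π / (p : ℝ) ^ 2) * lam p ≤ G.card ∧
        ∀ n ∈ G, n < 2 * π ∧
          (A 0 ≤ Nat.fib n % p ∧ Nat.fib n % p < A 0 + N 0) ∧
          (A 1 ≤ Nat.fib (n + 1) % p ∧ Nat.fib (n + 1) % p < A 1 + N 1) ∧
          P' (Nat.fib n % p) ∧ P' (Nat.fib (n + 1) % p) := by
  classical
  obtain ⟨κ, hκ, cc, hcc, p₀, h⟩ := sl2C Q lam hQ (ε / 2) (by positivity) (by linarith)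
  obtain ⟨p₁, hp₁⟩ : ∃ p₁ : ℕ, ∀ p : ℕ, p₁ ≤ p → 8 ≤ (p : ℝ) ^ (ε / 2) :=
    eventually_atTop.1 (((tendsto_rpow_atTop (show 0 < ε / 2 by positivity)).comp
      tendsto_natCast_atTop_atTop).eventually_ge_atTop 8)
  refine ⟨κ, hκ, cc / 2, by positivity, max (max p₀ p₁) 7, ?_⟩
  intro p hp0 hpp θ P' hP' π hπ A N hAN hW
  have : Fact p.Prime := ⟨hpp⟩
  have hp7 : 7 ≤ p := (le_max_right _ _).trans hp0
  have hpp0 : p₀ ≤ p := (le_max_left _ _).trans ((le_max_left _ _).trans hp0)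
  have hpp1 : p₁ ≤ p := (le_max_right _ _).trans ((le_max_left _ _).trans hp0)
  have hp : (0 : ℝ) < p := by exact_mod_cast hpp.pos
  have hp1 : (1 : ℝ) ≤ p := by exact_mod_cast hpp.one_lt.le
  have hmono : ∀ x y : ℝ, x ≤ y → (p : ℝ) ^ x ≤ (p : ℝ) ^ y := fun x y h =>
    Real.rpow_le_rpow_of_exponent_le hp1 h
  have hdet : (fibM p).det = 1 := by
    rw [fibM, det_fin_two_of]; ring
  have htr : (fibM p).trace ^ 2 ≠ 4 := by
    rw [fibM, trace_fin_two_of]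
    intro h1
    have h2 : ((5 : ℕ) : ZMod p) = 0 := by
      push_cast
      linear_combination h1
    rw [ZMod.natCast_eq_zero_iff] at h2
    have := Nat.le_of_dvd (by norm_num) h2
    omega
  set x : ℕ → Fin 2 → ZMod p := fun k => ![(Nat.fib (2 * k) : ZMod p), (Nat.fib (2 * k + 1) : ZMod p)]
    with hx
  have hx1 : ∀ k, x (k + 1) = fibM p *ᵥ x k := by
    intro k
    have f1 : Nat.fib (2 * (k + 1)) = Nat.fib (2 * k) + Nat.fib (2 * k + 1) := by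
      rw [show 2 * (k + 1) = 2 * k + 2 by ring, Nat.fib_add_two]
    have f2 : Nat.fib (2 * (k + 1) + 1) = Nat.fib (2 * k + 1) + Nat.fib (2 * (k + 1)) := by
      rw [show 2 * (k + 1) + 1 = (2 * k + 1) + 2 by ring, Nat.fib_add_two]
      rfl
    funext i
    fin_cases i
    · simp only [hx, fibM, Fin.zero_eta, cons_val_zero, mulVec, dotProduct, Fin.sum_univ_two, of_apply,
        cons_val_one]
      rw [f1]
      push_cast
      ring
    · simp only [hx, fibM, Fin.mk_one, cons_val_zero, mulVec, dotProduct, Fin.sum_univ_two, of_apply,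
        cons_val_one]
      rw [f2, f1]
      push_cast
      ring
  have hx01 : x 0 0 * x 1 1 ≠ x 0 1 * x 1 0 := by
    simp [hx]
  set t : ℕ := orderOf (fibM p) with ht
  -- `π ≤ 2 t`
  have hMt : (fibM p) ^ t = 1 := pow_orderOf_eq_one _
  have hfin : 0 < t := by
    have hu : IsUnit (fibM p) := by
      rw [isUnit_iff_isUnit_det, hdet]
      exact isUnit_one
    obtain ⟨u, hu⟩ := hu
    rw [ht, ← hu, orderOf_units]
    exact orderOf_pos u
  have hπ2 : π ≤ 2 * t := by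
    apply hπ.2
    have h1 := pow_x hx1 0 t
    rw [zero_add, hMt, one_mulVec] at h1
    have h2 := congrFun h1 0
    have h3 := congrFun h1 1
    simp only [hx, cons_val_zero, cons_val_one, mul_zero, Nat.fib_zero, Nat.cast_zero, zero_add,
      Nat.fib_one, Nat.cast_one] at h2 h3
    refine ⟨by omega, (ZMod.natCast_eq_zero_iff _ _).1 h2, ?_⟩
    exact (ZMod.natCast_eq_natCast_iff _ _ _).1 (by rw [h3, Nat.cast_one])
  -- `t ≤ π`
  have hper : ∀ n : ℕ, (Nat.fib (n + π) : ZMod p) = Nat.fib n ∧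
      (Nat.fib (n + 1 + π) : ZMod p) = Nat.fib (n + 1) := by
    intro n
    induction n with
    | zero =>
      obtain ⟨h1, h2, h3⟩ := hπ.1
      constructor
      · rw [zero_add, Nat.fib_zero, Nat.cast_zero]
        exact (ZMod.natCast_eq_zero_iff _ _).2 h2
      · rw [zero_add, Nat.fib_one, add_comm 1 π]
        exact (ZMod.natCast_eq_natCast_iff _ _ _).2 h3
    | succ n ih =>
      refine ⟨ih.2, ?_⟩
      rw [show n + 1 + 1 + π = (n + π) + 2 by ring, Nat.fib_add_two, Nat.cast_add, ih.1,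
        show n + π + 1 = n + 1 + π by ring, ih.2, show n + 1 + 1 = n + 2 by ring, Nat.fib_add_two,
        Nat.cast_add]
  have hπt : t ≤ π := by
    apply Nat.le_of_dvd hπ.1.1
    apply orderOf_dvd_of_pow_eq_one
    -- the orbit of `x 0 = (0, 1)` and of `x 1 = (1, 2)` is periodic
    have h1 : ∀ k, x (k + π) = x k := by
      intro k
      have h2 := hper (2 * k + π)
      have h3 := hper (2 * k)
      funext i
      fin_cases i
      · simp only [hx, Fin.zero_eta, cons_val_zero]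
        rw [show 2 * (k + π) = 2 * k + π + π by ring, h2.1, h3.1]
      · simp only [hx, Fin.mk_one, cons_val_one]
        rw [show 2 * (k + π) + 1 = 2 * k + π + 1 + π by ring, h2.2,
          show 2 * k + π + 1 = 2 * k + 1 + π by ring, h3.2]
    have hD := disc_ne hdet htr
    have h2 := pow_x hx1 0 π
    rw [h1] at h2
    refine one_of_col (M := fibM p) (by rw [det_pow, hdet, one_pow]) (by rw [← pow_succ', ← pow_succ])
      hD (h := x 0) ?_ h2.symm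
    intro h3
    have := congrFun h3 1
    simp [hx] at this
  have hπR : (π : ℝ) ≤ 2 * t := by exact_mod_cast hπ2
  obtain ⟨G, hG1, hG2⟩ := (h p hpp0).2 θ P' hP' (fibM p) hdet htr x hx1 hx01 A N
    (fun j => ⟨(hAN j).1, (hmono _ _ (by linarith)).trans (hAN j).2⟩) (by
    have h1 : (p : ℝ) ^ (10 + ε / 2) * (p : ℝ) ^ (ε / 2) = (p : ℝ) ^ (10 + ε) := by
      rw [← Real.rpow_add hp]; congr 1; ring
    have h2 : (p : ℝ) ^ (10 + ε / 2) * 8 ≤ (∏ j, (N j : ℝ)) ^ 4 * (2 * t) ^ 3 := by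
      calc (p : ℝ) ^ (10 + ε / 2) * 8 ≤ (p : ℝ) ^ (10 + ε / 2) * (p : ℝ) ^ (ε / 2) :=
            mul_le_mul_of_nonneg_left (hp₁ p hpp1) (by positivity)
        _ ≤ (∏ j, (N j : ℝ)) ^ 4 * (π : ℝ) ^ 3 := h1 ▸ hW
        _ ≤ _ := by gcongr
    nlinarith)
  have hlam := (h p hpp0).1
  refine ⟨G.image fun k => 2 * k, ?_, ?_⟩
  · rw [card_image_of_injOn (fun i _ j _ hij => by simpa using hij)]
    refine le_trans ?_ hG1
    apply mul_le_mul_of_nonneg_right _ hlam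
    have h6 : (0 : ℝ) ≤ ∏ j, (N j : ℝ) := by positivity
    calc cc / 2 * ((∏ j, (N j : ℝ)) * π / (p : ℝ) ^ 2) ≤
        cc / 2 * ((∏ j, (N j : ℝ)) * (2 * t) / (p : ℝ) ^ 2) := by gcongr
      _ = _ := by ring
  · intro n hn
    obtain ⟨k, hk, rfl⟩ := mem_image.1 hn
    obtain ⟨h1, h2⟩ := hG2 k hk
    have e0 : (x k 0).val = Nat.fib (2 * k) % p := by
      simp only [hx, cons_val_zero]
      rw [ZMod.val_natCast]
    have e1 : (x k 1).val = Nat.fib (2 * k + 1) % p := by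
      change ((Nat.fib (2 * k + 1) : ZMod p)).val = _
      rw [ZMod.val_natCast]
    have g0 := h2 0
    have g1 := h2 1
    rw [e0] at g0
    rw [e1] at g1
    exact ⟨by omega, g0.1, g1.1, g0.2, g1.2⟩

end Pool.Agent.KS6_52.SQ
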